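import Pool.Agent.GTO.StmtsA

/-! Squad GTO, row EBD (helper44). -/

namespace Pool.Agent.GTO.H44

open Finset
open scoped Classical

theorem flp_flp {ι : Type} (σ : ι → Bool) (i : ι) : flp (flp σ i) i = σ := by
  funext l
  simp only [flp, Function.update_apply]
  by_cases h1 : l = i
  · subst h1
    simp
  · simp [h1]

theorem sg_ne (b : Bool) : sg b ≠ 0 := by
  unfold sg; split_ifs <;> norm_num

theorem mem_VT (hT : TriStmt) {ι : Type} [Fintype ι] {a : ι → V} (ha : PI a) (hs : Spn a)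
    {σ : ι → Bool} {u v w : ι} (hσ : Tope a σ) (hw : walls a σ = {u, v, w}) (huv : u ≠ v)
    (hvw : v ≠ w) (hwu : w ≠ u) :
    ∃ x : V, x ≠ 0 ∧ (∀ i ∈ ln a u v, ip (a i) x = 0) ∧
      ∀ i, i ∉ ln a u v → 0 < ip (bv a σ i) x := by
  obtain ⟨hc, hd, -⟩ := hT ι a ha hs σ u v w hσ hw huv hvw hwu
  set D := dt (bv a σ u) (bv a σ v) (bv a σ w) with hD
  have key : ∀ y : V, ip y (D • cr (bv a σ u) (bv a σ v)) = D * dt (bv a σ u) (bv a σ v) y := by
    intro y
    simp only [ip, cr, dt, Pi.smul_apply, smul_eq_mul, Matrix.cons_val_zero, Matrix.cons_val_one,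
      Matrix.cons_val]
    ring
  have key2 : ∀ l, dt (bv a σ u) (bv a σ v) (a l) = sg (σ u) * sg (σ v) * dt (a u) (a v) (a l) := by
    intro l
    simp only [dt, bv, Pi.smul_apply, smul_eq_mul]
    ring
  have key3 : ∀ l, dt (bv a σ u) (bv a σ v) (bv a σ l) =
      sg (σ u) * sg (σ v) * sg (σ l) * dt (a u) (a v) (a l) := by
    intro l
    simp only [dt, bv, Pi.smul_apply, smul_eq_mul]
    ring
  refine ⟨D • cr (bv a σ u) (bv a σ v), ?_, ?_, ?_⟩
  · intro h0
    have h1 := key (bv a σ w)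
    rw [h0, ← hD] at h1
    have h2 : ip (bv a σ w) (0 : V) = 0 := by simp [ip]
    rw [h2] at h1
    exact hd (by simpa using h1.symm)
  · intro i hi
    have hi' : dt (a u) (a v) (a i) = 0 := by simpa [ln] using hi
    rw [key, key2, hi']
    ring
  · intro i hi
    have hi' : dt (a u) (a v) (a i) ≠ 0 := by simpa [ln] using hi
    obtain ⟨p, q, r, -, -, hr, hb⟩ := hc i
    have e1 : dt (bv a σ u) (bv a σ v) (bv a σ i) = r * D := by
      rw [hb, hD]
      simp only [dt, Pi.add_apply, Pi.smul_apply, smul_eq_mul]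
      ring
    have e2 : dt (bv a σ u) (bv a σ v) (bv a σ i) ≠ 0 := by
      rw [key3]
      exact mul_ne_zero (mul_ne_zero (mul_ne_zero (sg_ne _) (sg_ne _)) (sg_ne _)) hi'
    rw [key, e1]
    have hr0 : 0 < r := by
      rcases hr.lt_or_eq with h1 | h1
      · exact h1
      · exfalso; apply e2; rw [e1, ← h1]; ring
    have : D * (r * D) = r * (D * D) := by ring
    rw [this]
    exact mul_pos hr0 (mul_self_pos.mpr hd)

/-- data with third wall `k` -/
theorem dataAt (hG : GdwStmt) (hU : UnqStmt) {ι : Type} [Fintype ι] {a : ι → V} (ha : PI a)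
    {σ : ι → Bool} {k : ι} (hg : IsGood a σ) (hk : Tope a (flp σ k)) :
    ∃ d : Dat ι, d.s = σ ∧ Good a d ∧ d.w = k := by
  obtain ⟨d, hd, hgd⟩ := hg
  have hw := (hG ι a ha d hgd).2.1
  have hk' : k ∈ walls a d.s := by
    rw [hd]; simpa [walls] using hk
  rw [hw] at hk'
  simp only [mem_insert, mem_singleton] at hk'
  have hU1 := (hU ι a ha).1
  rcases hk' with h | h | h
  · exact ⟨rot d, hd, hU1 _ hgd, h.symm⟩
  · exact ⟨rot (rot d), hd, hU1 _ (hU1 _ hgd), h.symm⟩
  · exact ⟨d, hd, hgd, h.symm⟩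

theorem ln_symm {ι : Type} [Fintype ι] (a : ι → V) (i j : ι) : ln a i j = ln a j i := by
  ext l
  simp only [ln, mem_filter, mem_univ, true_and]
  have : dt (a i) (a j) (a l) = - dt (a j) (a i) (a l) := by
    simp only [dt]; ring
  rw [this]
  constructor <;> intro h <;> linarith

theorem ebdS (hB : BasStmt) (hM : MelStmt) (hT : TriStmt) (hG : GdwStmt) (hN : NbrStmt)
    (hV : VtxStmt) (hU : UnqStmt) : EbdStmt := by
  intro ι _ a ha hs
  have hcard : 2 ≤ Fintype.card ι := by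
    obtain ⟨i, j, k, h⟩ := hs
    have hij : i ≠ j := by
      intro h1; apply h; subst h1; simp only [dt]; ring
    exact Fintype.one_lt_card_iff.mpr ⟨i, j, hij⟩
  obtain ⟨-, hB7, -, -, -, hD2, hl2⟩ := hB.2.2.2.2.2 ι a ha
  obtain ⟨hM1, hM2⟩ := hM ι a ha hs
  set NG := (topes a).filter fun σ => ¬ IsGood a σ with hNG
  set T3 := NG.filter fun σ => (walls a σ).card = 3 with hT3
  set bad := (lns a).filter fun ℓ => ℓ.card ≠ 3 with hbad
  set VT : Finset ι → Finset (ι → Bool) := fun ℓ => univ.filter fun σ =>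
    Tope a σ ∧ ∃ x : V, x ≠ 0 ∧ (∀ i ∈ ℓ, ip (a i) x = 0) ∧ ∀ i, i ∉ ℓ → 0 < ip (bv a σ i) x
    with hVT
  have hln : ∀ i j, i ≠ j → ln a i j ∈ lns a := by
    intro i j hij
    simp only [lns, mem_image, mem_filter, mem_univ, true_and, Prod.exists]
    exact ⟨i, j, hij, rfl⟩
  have mVT : ∀ σ u v w, Tope a σ → walls a σ = {u, v, w} → u ≠ v → v ≠ w → w ≠ u →
      σ ∈ VT (ln a u v) := by
    intro σ u v w h1 h2 h3 h4 h5
    simp only [hVT, mem_filter, mem_univ, true_and]
    exact ⟨h1, mem_VT hT ha hs h1 h2 h3 h4 h5⟩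
  -- three walls, not good
  have hT3sub : T3 ⊆ bad.biUnion VT := by
    intro σ hσ
    simp only [hT3, hNG, mem_filter, topes, mem_univ, true_and] at hσ
    obtain ⟨⟨h1, h2⟩, h3⟩ := hσ
    obtain ⟨u, v, w, huv, huw, hvw, hw⟩ := card_eq_three.mp h3
    obtain ⟨-, -, h4⟩ := hT ι a ha hs σ u v w h1 hw huv hvw huw.symm
    rw [mem_biUnion]
    have hw2 : walls a σ = {v, w, u} := by rw [hw]; ext t; simp; tauto
    have hw3 : walls a σ = {w, u, v} := by rw [hw]; ext t; simp; tauto
    by_cases c1 : (ln a u v).card = 3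
    · by_cases c2 : (ln a v w).card = 3
      · by_cases c3 : (ln a w u).card = 3
        · exact absurd (h4 c1 c2 c3) h2
        · exact ⟨ln a w u, by simp only [hbad, mem_filter]; exact ⟨hln _ _ huw.symm, c3⟩,
            mVT σ w u v h1 hw3 huw.symm huv hvw⟩
      · exact ⟨ln a v w, by simp only [hbad, mem_filter]; exact ⟨hln _ _ hvw, c2⟩,
            mVT σ v w u h1 hw2 hvw huw.symm huv⟩
    · exact ⟨ln a u v, by simp only [hbad, mem_filter]; exact ⟨hln _ _ huv, c1⟩,
            mVT σ u v w h1 hw huv hvw huw.symm⟩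
  have hT3c : (T3.card : ℤ) ≤ ∑ ℓ ∈ bad, 4 * (ℓ.card : ℤ) := by
    have h1 : T3.card ≤ ∑ ℓ ∈ bad, 4 * ℓ.card := by
      refine (card_le_card hT3sub).trans (card_biUnion_le.trans (sum_le_sum fun ℓ hℓ => ?_))
      simp only [hbad, mem_filter] at hℓ
      exact hV ι a ha hcard ℓ hℓ.1
    exact_mod_cast h1
  -- sum of the excess
  have hex : ∑ σ ∈ NG, (4 : ℤ) * (((walls a σ).card : ℤ) - 3) ≤
      ∑ ℓ ∈ bad, (24 - 8 * (ℓ.card : ℤ)) - 24 := by
    have h1 : ∑ σ ∈ NG, (4 : ℤ) * (((walls a σ).card : ℤ) - 3) ≤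
        ∑ σ ∈ topes a, (4 : ℤ) * (((walls a σ).card : ℤ) - 3) := by
      apply sum_le_sum_of_subset_of_nonneg (filter_subset _ _)
      intro σ hσ _
      have := hM1 σ hσ
      have h3 : (3 : ℤ) ≤ ((walls a σ).card : ℤ) := by exact_mod_cast this
      linarith
    have h1' : ∑ σ ∈ topes a, (4 : ℤ) * (((walls a σ).card : ℤ) - 3) =
        4 * (∑ ℓ ∈ lns a, (6 - 2 * (ℓ.card : ℤ)) - 6) := by rw [← mul_sum, hM2]
    rw [h1'] at h1
    have h2 : ∑ ℓ ∈ lns a, (6 - 2 * (ℓ.card : ℤ)) = ∑ ℓ ∈ bad, (6 - 2 * (ℓ.card : ℤ)) := by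
      rw [hbad, sum_filter]
      apply sum_congr rfl
      intro ℓ _
      split_ifs with h
      · rfl
      · push Not at h
        rw [h]; norm_num
    rw [h2] at h1
    have h3 : ∑ ℓ ∈ bad, (24 - 8 * (ℓ.card : ℤ)) = 4 * ∑ ℓ ∈ bad, (6 - 2 * (ℓ.card : ℤ)) := by
      rw [mul_sum]; apply sum_congr rfl; intro ℓ _; ring
    rw [h3]
    refine h1.trans ?_
    ring_nf
    exact le_refl _
  -- the number of walls with a good tope behind, for three walls
  have hone : ∀ σ ∈ T3, (univ.filter fun k => IsGood a (flp σ k)).card ≤ 1 := by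
    intro σ hσ
    simp only [hT3, hNG, mem_filter, topes, mem_univ, true_and] at hσ
    obtain ⟨⟨h1, h2⟩, h3⟩ := hσ
    rw [card_le_one]
    intro k hk k' hk'
    simp only [mem_filter, mem_univ, true_and] at hk hk'
    by_contra hne
    -- lines from `k`
    have aux : ∀ k, IsGood a (flp σ k) → k ∈ walls a σ ∧ ∀ j ∈ walls a σ, j ≠ k →
        (ln a k j).card = 3 := by
      intro k hk
      obtain ⟨d, hd1, hd2, hd3⟩ := dataAt hG hU ha hk (by rw [flp_flp]; exact h1)
      obtain ⟨n1, n2, n3, n4, n5, n6⟩ := hN ι a ha d hd2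
      have hF : flp d.s d.w = σ := by rw [hd1, hd3, flp_flp]
      rw [hF] at n1 n2 n3 n4
      have nd := hd2.1
      simp only [List.nodup_cons, List.mem_cons, not_or, List.not_mem_nil, not_false_eq_true,
        and_true, List.nodup_nil] at nd
      obtain ⟨⟨e1, e2, e3, e4, e5⟩, ⟨e6, e7, e8, e9⟩, ⟨e10, e11, e12⟩, ⟨e13, e14⟩, e15⟩ := nd
      have hW : walls a σ = {d.w, d.u', d.v'} := by
        symm
        apply eq_of_subset_of_card_le
        · intro t ht
          simp only [mem_insert, mem_singleton] at ht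
          rcases ht with h | h | h <;> rw [h] <;> assumption
        · rw [h3, card_eq_three.mpr ⟨d.w, d.u', d.v', e10, e11, e13, rfl⟩]
      refine ⟨hd3 ▸ n2, ?_⟩
      intro j hj hjk
      rw [hW] at hj
      simp only [mem_insert, mem_singleton] at hj
      rw [← hd3] at hjk ⊢
      rcases hj with h | h | h
      · exact absurd h hjk
      · rw [h, n5]
        exact card_eq_three.mpr ⟨d.w, d.u', d.v, e10, Ne.symm e6, Ne.symm e7, rfl⟩
      · rw [h, n6]
        exact card_eq_three.mpr ⟨d.w, d.v', d.u, e11, Ne.symm e2, Ne.symm e4, rfl⟩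
    obtain ⟨q1, q2⟩ := aux k hk
    obtain ⟨q3, q4⟩ := aux k' hk'
    -- third wall
    obtain ⟨m, hm1, hm2, hm3, hm4⟩ : ∃ m, m ∈ walls a σ ∧ m ≠ k ∧ m ≠ k' ∧
        walls a σ = {k, k', m} := by
      have hc : (((walls a σ).erase k).erase k').card = 1 := by
        rw [card_erase_of_mem (mem_erase.mpr ⟨Ne.symm hne, q3⟩), card_erase_of_mem q1, h3]
      obtain ⟨m, hm⟩ := card_eq_one.mp hc
      have hmm : m ∈ ((walls a σ).erase k).erase k' := by rw [hm]; simp
      simp only [mem_erase] at hmm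
      refine ⟨m, hmm.2.2, hmm.2.1, hmm.1, ?_⟩
      ext t
      simp only [mem_insert, mem_singleton]
      constructor
      · intro ht
        by_cases t1 : t = k
        · exact Or.inl t1
        · by_cases t2 : t = k'
          · exact Or.inr (Or.inl t2)
          · right; right
            have : t ∈ ((walls a σ).erase k).erase k' := by
              simp only [mem_erase]; exact ⟨t2, t1, ht⟩
            rw [hm] at this
            simpa using this
      · rintro (h | h | h) <;> rw [h]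
        · exact q1
        · exact q3
        · exact hmm.2.2
    obtain ⟨-, -, g⟩ := hT ι a ha hs σ k k' m h1 hm4 hne hm3.symm hm2
    apply h2
    apply g (q2 k' q3 (Ne.symm hne)) (q4 m hm1 hm3)
    rw [ln_symm]
    exact q2 m hm1 hm2
  have hnw : ∀ σ ∈ NG, (univ.filter fun k => IsGood a (flp σ k)).card ≤ (walls a σ).card := by
    intro σ hσ
    apply card_le_card
    intro k hk
    simp only [mem_filter, mem_univ, true_and] at hk
    obtain ⟨d, hd, hg⟩ := hk
    simp only [walls, mem_filter, mem_univ, true_and]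
    rw [← hd]
    exact (hG ι a ha d hg).1
  have hw3 : ∀ σ ∈ NG, σ ∉ T3 → (4 : ℤ) ≤ ((walls a σ).card : ℤ) := by
    intro σ hσ h3
    have h1 : 3 ≤ (walls a σ).card := hM1 σ (mem_of_mem_filter σ hσ)
    have h2 : (walls a σ).card ≠ 3 := by
      intro h; apply h3; simp only [hT3, mem_filter]; exact ⟨hσ, h⟩
    have : 4 ≤ (walls a σ).card := by omega
    exact_mod_cast this
  have hw3' : ∀ σ ∈ T3, ((walls a σ).card : ℤ) = 3 := by
    intro σ h3
    simp only [hT3, mem_filter] at h3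
    exact_mod_cast h3.2
  have hsum : ∀ c : ℤ, ∑ σ ∈ NG, ((4 : ℤ) * (((walls a σ).card : ℤ) - 3) +
      if σ ∈ T3 then c else 0) = ∑ σ ∈ NG, (4 : ℤ) * (((walls a σ).card : ℤ) - 3) +
      c * T3.card := by
    intro c
    rw [sum_add_distrib, ← sum_filter]
    congr 1
    have : NG.filter (fun σ => σ ∈ T3) = T3 := by
      ext σ
      simp only [mem_filter]
      constructor
      · exact fun h => h.2
      · intro h; exact ⟨mem_of_mem_filter σ h, h⟩
    rw [this, sum_const]
    simp [mul_comm]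
  -- EE
  have hEE : (EE a : ℤ) ≤ ∑ σ ∈ NG, (4 : ℤ) * (((walls a σ).card : ℤ) - 3) + T3.card := by
    have h1 : EE a ≤ ∑ σ ∈ NG, (univ.filter fun k => IsGood a (flp σ k)).card := by
      rw [← card_sigma]
      unfold EE
      apply card_le_card_of_injOn (fun p => (⟨flp p.1 p.2, p.2⟩ : Σ _ : (ι → Bool), ι))
      · intro p hp
        simp only [coe_filter, Set.mem_ofPred_eq, mem_univ, true_and] at hp
        obtain ⟨p1, p2, p3⟩ := hp
        simp only [coe_sigma, Set.mem_sigma_iff, mem_coe, hNG, topes, mem_filter, mem_univ,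
          true_and]
        exact ⟨⟨p2, p3⟩, by rw [flp_flp]; exact p1⟩
      · rintro ⟨s1, k1⟩ _ ⟨s2, k2⟩ _ h
        simp only [Sigma.mk.injEq, heq_eq_eq] at h
        obtain ⟨e1, e2⟩ := h
        subst e2
        have := congrArg (fun t => flp t k1) e1
        simp only [flp_flp] at this
        rw [this]
    have h2 : (EE a : ℤ) ≤ ∑ σ ∈ NG, ((univ.filter fun k => IsGood a (flp σ k)).card : ℤ) := by
      exact_mod_cast h1
    refine h2.trans ?_
    have h3 := hsum 1
    rw [one_mul] at h3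
    rw [← h3]
    apply sum_le_sum
    intro σ hσ
    split_ifs with h
    · have g1 := hone σ h
      have g2 := hw3' σ h
      have g3 : ((univ.filter fun k => IsGood a (flp σ k)).card : ℤ) ≤ 1 := by exact_mod_cast g1
      linarith
    · have g1 := hnw σ hσ
      have g2 := hw3 σ hσ h
      have g3 : ((univ.filter fun k => IsGood a (flp σ k)).card : ℤ) ≤ (walls a σ).card := by
        exact_mod_cast g1
      linarith
  have hBF : (BF a : ℤ) ≤ ∑ σ ∈ NG, (4 : ℤ) * (((walls a σ).card : ℤ) - 3) + 3 * T3.card := by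
    have h1 : BF a ≤ ∑ σ ∈ NG, (walls a σ).card := by
      rw [← card_sigma]
      unfold BF
      apply card_le_card_of_injOn (fun p => (⟨p.1, p.2⟩ : Σ _ : (ι → Bool), ι))
      · intro p hp
        simp only [coe_filter, Set.mem_ofPred_eq, mem_univ, true_and] at hp
        obtain ⟨p1, p2, p3⟩ := hp
        simp only [coe_sigma, Set.mem_sigma_iff, mem_coe, hNG, topes, mem_filter, mem_univ,
          true_and, walls]
        exact ⟨⟨p1, p3⟩, p2⟩
      · rintro ⟨s1, k1⟩ _ ⟨s2, k2⟩ _ h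
        simp only [Sigma.mk.injEq, heq_eq_eq] at h
        obtain ⟨e1, e2⟩ := h
        rw [e1, e2]
    have h2 : (BF a : ℤ) ≤ ∑ σ ∈ NG, ((walls a σ).card : ℤ) := by
      exact_mod_cast h1
    refine h2.trans ?_
    rw [← hsum 3]
    apply sum_le_sum
    intro σ hσ
    split_ifs with h
    · have g2 := hw3' σ h
      linarith
    · have g2 := hw3 σ hσ h
      linarith
  -- rich points
  have hR : ((Rich a).card : ℤ) ≤ ∑ ℓ ∈ bad, (if 4 ≤ ℓ.card then (ℓ.card : ℤ) else 0) := by
    have h1 : (Rich a).card ≤ ∑ ℓ ∈ bad.filter (fun ℓ => 4 ≤ ℓ.card), ℓ.card := by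
      refine (card_le_card ?_).trans card_biUnion_le
      intro i hi
      simp only [Rich, mem_filter, mem_univ, true_and] at hi
      obtain ⟨j, hj, h4⟩ := hi
      rw [mem_biUnion]
      refine ⟨ln a i j, ?_, ?_⟩
      · simp only [hbad, mem_filter]
        exact ⟨⟨hln _ _ hj.symm, by omega⟩, h4⟩
      · exact (hB7 i j hj.symm).1
    rw [← sum_filter]
    exact_mod_cast h1
  have hD2' : (D2 a : ℤ) = ∑ ℓ ∈ bad, (ℓ.card : ℤ) * ((ℓ.card : ℤ) - 1) := by
    rw [hD2, Nat.cast_sum]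
    apply sum_congr rfl
    intro ℓ hℓ
    have h2 : 2 ≤ ℓ.card := hl2 ℓ (mem_of_mem_filter ℓ hℓ)
    rw [Nat.cast_mul, Nat.cast_sub (by omega)]
    simp
  have hm : ∀ ℓ ∈ bad, ℓ.card = 2 ∨ (4 ≤ ℓ.card) := by
    intro ℓ hℓ
    simp only [hbad, mem_filter] at hℓ
    have h2 := hl2 ℓ hℓ.1
    have h3 := hℓ.2
    omega
  constructor
  · have : (EE a : ℤ) + 22 * (Rich a).card + 24 ≤ 8 * D2 a := by
      have e1 : (EE a : ℤ) + 22 * (Rich a).card + 24 ≤
          ∑ ℓ ∈ bad, (24 - 8 * (ℓ.card : ℤ)) + ∑ ℓ ∈ bad, 4 * (ℓ.card : ℤ) +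
          22 * ∑ ℓ ∈ bad, (if 4 ≤ ℓ.card then (ℓ.card : ℤ) else 0) := by linarith
      refine e1.trans ?_
      rw [hD2', mul_sum, mul_sum, ← sum_add_distrib, ← sum_add_distrib]
      apply sum_le_sum
      intro ℓ hℓ
      rcases hm ℓ hℓ with h | h
      · rw [h]; norm_num
      · rw [if_pos h]
        have h' : (4 : ℤ) ≤ (ℓ.card : ℤ) := by exact_mod_cast h
        nlinarith
    exact_mod_cast this
  · have : (BF a : ℤ) ≤ 16 * D2 a := by
      have e1 : (BF a : ℤ) ≤
          ∑ ℓ ∈ bad, (24 - 8 * (ℓ.card : ℤ)) + 3 * ∑ ℓ ∈ bad, 4 * (ℓ.card : ℤ) := by linarith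
      refine e1.trans ?_
      rw [hD2', mul_sum, mul_sum, ← sum_add_distrib]
      apply sum_le_sum
      intro ℓ hℓ
      rcases hm ℓ hℓ with h | h
      · rw [h]; norm_num
      · have h' : (4 : ℤ) ≤ (ℓ.card : ℤ) := by exact_mod_cast h
        nlinarith
    exact_mod_cast this

end Pool.Agent.GTO.H44
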