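import Pool.Agent.GTO.StmtsA

/-! Squad GTO, row RUN (helper44). -/

namespace Pool.Agent.GTO.H44

open Finset
open scoped Classical

variable {ι : Type}

theorem flp_comm (σ : ι → Bool) (i j : ι) : flp (flp σ i) j = flp (flp σ j) i := by
  by_cases h : i = j
  · subst h; rfl
  · funext l
    simp only [flp, Function.update_apply]
    by_cases h1 : l = i
    · subst h1
      simp [h]
    · by_cases h2 : l = j
      · subst h2
        simp [h1]
      · simp [h1, h2]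

theorem flp3 (σ : ι → Bool) (i j k : ι) :
    flp (flp (flp σ i) j) k = flp (flp (flp σ k) j) i := by
  rw [flp_comm (flp σ i) j k, flp_comm σ i k, flp_comm (flp σ k) i j]

theorem nodup6 {x1 x2 x3 x4 x5 x6 : ι} (h : [x1, x2, x3, x4, x5, x6].Nodup) :
    (x1 ≠ x2 ∧ x1 ≠ x3 ∧ x1 ≠ x4 ∧ x1 ≠ x5 ∧ x1 ≠ x6) ∧ (x2 ≠ x3 ∧ x2 ≠ x4 ∧ x2 ≠ x5 ∧ x2 ≠ x6) ∧
    (x3 ≠ x4 ∧ x3 ≠ x5 ∧ x3 ≠ x6) ∧ (x4 ≠ x5 ∧ x4 ≠ x6) ∧ x5 ≠ x6 := by
  simp only [List.nodup_cons, List.mem_cons, not_or, List.not_mem_nil, not_false_eq_true,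
    and_true, List.nodup_nil] at h
  tauto

/-- the data of one column -/
structure CD (a : ι → V) (d f fm g e gm h k : Dat ι) : Prop where
  s1 : Step a (rot d) fm
  s2 : Step a d g
  s3 : Step a g e
  ef : f = rot (rot e)
  s4 : Step a (rot (rot fm)) gm
  s5 : Step a (rot (rot g)) h
  s6 : Step a h k

variable [Fintype ι]

theorem two (hU : UnqStmt) (hF : FlpStmt) {a : ι → V} (ha : PI a)
    {d f fm g e gm h k f' fm' g' e' gm' h' k' : Dat ι}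
    (c : CD a d f fm g e gm h k) (c' : CD a f f' fm' g' e' gm' h' k') :
    fm'.u' = fm.u' ∧ h'.u' = h.u' := by
  obtain ⟨⟨s1a, s1b, s1c, s1d, s1e, s1f, s1g, s1h⟩, ⟨s2a, s2b, s2c, s2d, s2e, s2f, s2g, s2h⟩,
    ⟨s3a, s3b, s3c, s3d, s3e, s3f, s3g, s3h⟩, ef, ⟨s4a, s4b, s4c, s4d, s4e, s4f, s4g, s4h⟩,
    ⟨s5a, s5b, s5c, s5d, s5e, s5f, s5g, s5h⟩, ⟨s6a, s6b, s6c, s6d, s6e, s6f, s6g, s6h⟩⟩ := c
  obtain ⟨⟨t1a, t1b, t1c, t1d, t1e, t1f, t1g, t1h⟩, ⟨t2a, t2b, t2c, t2d, t2e, t2f, t2g, t2h⟩,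
    -, -, -, ⟨t5a, t5b, t5c, t5d, t5e, t5f, t5g, t5h⟩, -⟩ := c'
  subst ef
  obtain ⟨hU1, hU2, hU3, hU4⟩ := hU ι a ha
  simp only [rot] at s1c s1d s1e s1f s1g s1h s4c s4d s4e s4f s4g s4h s5c s5d s5e s5f s5g s5h
  simp only [rot] at t1c t1d t1e t1f t1g t1h t2c t2d t2e t2f t2g t2h t5c t5d t5e t5f t5g t5h
  constructor
  · -- below
    have hg : Good a (rot (rot gm)) := hU1 _ (hU1 _ s4b)
    have hs : flp (rot (rot gm)).s (rot (rot gm)).w = fm'.s := by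
      simp only [rot]
      rw [t1c, s3c, s2c, s4c, s1c, s4e, s3f, s2g, s2f, s1e, s1h]
      exact flp3 d.s d.u d.v' d.w
    obtain ⟨x, hx⟩ := hF ι a ha (rot (rot gm)) hg (by rw [hs]; exact ⟨fm', rfl, t1b⟩)
    obtain ⟨-, xb, xc, xd, xe, xf, xg, xh⟩ := hx
    have hxe : x = rot (rot fm') := by
      apply hU2 _ _ xb (hU1 _ (hU1 _ t1b))
      · rw [xc, hs]; rfl
      · rw [xd]
        simp only [rot]
        rw [s4e, t1f, s3g, s2d, s1h]
    have := xg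
    rw [hxe] at this
    simp only [rot] at this
    rw [this, s4f]
  · have hs : flp k.s k.w = h'.s := by
      rw [t5c, t2c, s3c, s2c, s6c, s5c, s2c, s6f, s5g, s2e, s2f, t2e, s5f, s3e, s3h, s2e]
      exact flp3 _ _ _ _
    obtain ⟨x, hx⟩ := hF ι a ha k s6b (by rw [hs]; exact ⟨h', rfl, t5b⟩)
    obtain ⟨-, xb, xc, xd, xe, xf, xg, xh⟩ := hx
    have hxe : x = rot h' := by
      apply hU2 _ _ xb (hU1 _ t5b)
      · rw [xc, hs]; rfl
      · rw [xd]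
        simp only [rot]
        rw [s6f, s5g, t5e, t2h, s3d]
    have := xh
    rw [hxe] at this
    simp only [rot] at this
    rw [this, s6e]

/-- lines through two points of a line of three points -/
theorem triOf (hB : BasStmt) {a : ι → V} (ha : PI a) {i j x y z : ι} {S : Finset ι}
    (hij : i ≠ j) (hS : ln a i j = S) (hx : x ∈ S) (hy : y ∈ S) (hxy : x ≠ y) (hyz : y ≠ z)
    (hzx : z ≠ x) (hS' : S = {x, y, z}) : Tri a x y z := by
  refine ⟨hxy, hyz, hzx, ?_⟩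
  rw [← hS', ← hS]
  exact (hB.2.2.2.2.2 ι a ha).1 i j x y hij hxy (by rw [hS]; exact hx) (by rw [hS]; exact hy)

theorem runS (hB : BasStmt) (hG : GdwStmt) (hC : ColStmt) (hD : DisStmt) (hU : UnqStmt)
    (hF : FlpStmt) : RunStmt := by
  intro ι _ a ha N f hN hN3 hcol
  have hcd : ∀ i, ∃ fm g e gm h k : Dat ι, i < N → CD a (f i) (f (i + 1)) fm g e gm h k := by
    intro i
    by_cases hi : i < N
    · obtain ⟨fm, g, e, gm, h, k, s1, s2, s3, ef, s4, s5, s6⟩ := hcol i hi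
      exact ⟨fm, g, e, gm, h, k, fun _ => ⟨s1, s2, s3, ef, s4, s5, s6⟩⟩
    · exact ⟨f 0, f 0, f 0, f 0, f 0, f 0, fun h => absurd h hi⟩
  choose fm g e gm h k hcd using hcd
  obtain ⟨-, -, hC3⟩ := hC ι a ha
  have hgood : ∀ i ≤ N, Good a (f i) := by
    intro i hi
    rcases Nat.lt_or_ge i N with h1 | h1
    · exact (hC3 _ _ (hcol i h1)).1
    · have : i = (N - 1) + 1 := by omega
      rw [this]
      exact (hC3 _ _ (hcol (N - 1) (by omega))).2.1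
  have hu : ∀ i ≤ N, (f i).u = (f 0).u ∧ (f i).u' = (f 0).u' := by
    intro i
    induction i with
    | zero => intro _; exact ⟨rfl, rfl⟩
    | succ i ih =>
      intro hi
      obtain ⟨-, -, e1, -, e2, -⟩ := hC3 _ _ (hcol i (by omega))
      obtain ⟨i1, i2⟩ := ih (by omega)
      exact ⟨by rw [e1, i1], by rw [e2, i2]⟩
  have hv : ∀ i < N, (f (i + 1)).v = (f i).v' ∧ (f (i + 1)).w' = (f i).w := by
    intro i hi
    obtain ⟨-, -, -, e1, -, e2⟩ := hC3 _ _ (hcol i hi)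
    exact ⟨e1, e2⟩
  have hGm : ∀ i < N, (fm i).u' = (fm 0).u' ∧ (h i).u' = (h 0).u' := by
    intro i
    induction i with
    | zero => intro _; exact ⟨rfl, rfl⟩
    | succ i ih =>
      intro hi
      obtain ⟨i1, i2⟩ := ih (by omega)
      obtain ⟨j1, j2⟩ := two hU hF ha (hcd i (by omega)) (hcd (i + 1) hi)
      exact ⟨by rw [j1, i1], by rw [j2, i2]⟩
  obtain ⟨hB1, hB2, -⟩ := hB.2.2.2.2.2 ι a ha
  set O := (f 0).u with hO
  set G1 := (f 0).u' with hG1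
  set Gm := (fm 0).u' with hGmd
  set G2 := (h 0).u' with hG2d
  -- labels of fm i
  have hfm : ∀ i < N, (fm i).u = O ∧ (fm i).v = (f (i + 1)).v ∧ (fm i).w = (f i).w' ∧
      (fm i).u' = Gm ∧ (fm i).v' = (f i).v ∧ (fm i).w' = (f (i + 1)).w' ∧ Good a (fm i) := by
    intro i hi
    obtain ⟨s1a, s1b, s1c, s1d, s1e, s1f, s1g, s1h⟩ := (hcd i hi).s1
    simp only [rot] at s1c s1d s1e s1f s1g s1h
    refine ⟨?_, ?_, s1f, (hGm i hi).1, s1g, ?_, s1b⟩
    · rw [s1d]; exact (hu i hi.le).1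
    · rw [s1e, (hv i hi).1]
    · rw [s1h, (hv i hi).2]
  -- labels of h i
  have hh : ∀ i < N, (h i).u = G1 ∧ (h i).v = (f i).v ∧ (h i).w = (f (i + 1)).w ∧
      (h i).u' = G2 ∧ (h i).v' = (f (i + 1)).v ∧ (h i).w' = (f (i + 1)).w' ∧ Good a (h i) := by
    intro i hi
    obtain ⟨s5a, s5b, s5c, s5d, s5e, s5f, s5g, s5h⟩ := (hcd i hi).s5
    obtain ⟨s2a, s2b, s2c, s2d, s2e, s2f, s2g, s2h⟩ := (hcd i hi).s2
    obtain ⟨s3a, s3b, s3c, s3d, s3e, s3f, s3g, s3h⟩ := (hcd i hi).s3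
    have ef := (hcd i hi).ef
    simp only [rot] at s5c s5d s5e s5f s5g s5h
    refine ⟨?_, ?_, ?_, (hGm i hi).2, ?_, ?_, s5b⟩
    · rw [s5d, s2e]; exact (hu i hi.le).2
    · rw [s5e, s2h]
    · rw [s5f, ef]; simp only [rot]; rw [s3e]
    · rw [s5g, s2f, (hv i hi).1]
    · rw [s5h, s2d, (hv i hi).2]
  -- nodup facts
  have n1 : ∀ i ≤ N, O ≠ (f i).v ∧ O ≠ (f i).w' ∧ (f i).v ≠ (f i).w' ∧ G1 ≠ (f i).v ∧
      G1 ≠ (f i).w' ∧ O ≠ G1 := by
    intro i hi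
    have := nodup6 (hgood i hi).1
    obtain ⟨⟨h1, h2, h3, h4, h5⟩, ⟨h6, h7, h8, h9⟩, ⟨h10, h11, h12⟩, ⟨h13, h14⟩, h15⟩ := this
    rw [(hu i hi).1] at h1 h2 h3 h4 h5
    rw [(hu i hi).2] at h3 h7 h10 h13 h14
    exact ⟨h1, h5, h9, h7.symm, h14, h3⟩
  have n2 : ∀ i < N, Gm ≠ O ∧ Gm ≠ (f i).v ∧ Gm ≠ (f (i + 1)).v ∧ Gm ≠ (f i).w' ∧
      Gm ≠ (f (i + 1)).w' ∧ (f (i + 1)).v ≠ (f i).w' := by
    intro i hi
    obtain ⟨f1, f2, f3, f4, f5, f6, f7⟩ := hfm i hi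
    obtain ⟨⟨h1, h2, h3, h4, h5⟩, ⟨h6, h7, h8, h9⟩, ⟨h10, h11, h12⟩, ⟨h13, h14⟩, h15⟩ :=
      nodup6 f7.1
    rw [f1, f4] at h3
    rw [f4, f5] at h13
    rw [f2, f4] at h7
    rw [f3, f4] at h10
    rw [f4, f6] at h14
    rw [f2, f3] at h6
    exact ⟨h3.symm, h13, h7.symm, h10.symm, h14, h6⟩
  have n3 : ∀ i < N, G2 ≠ G1 ∧ G2 ≠ (f i).v ∧ G2 ≠ (f (i + 1)).w ∧ G2 ≠ (f (i + 1)).v ∧
      G2 ≠ (f (i + 1)).w' ∧ (f i).v ≠ (f (i + 1)).w := by
    intro i hi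
    obtain ⟨f1, f2, f3, f4, f5, f6, f7⟩ := hh i hi
    obtain ⟨⟨h1, h2, h3, h4, h5⟩, ⟨h6, h7, h8, h9⟩, ⟨h10, h11, h12⟩, ⟨h13, h14⟩, h15⟩ :=
      nodup6 f7.1
    rw [f1, f4] at h3
    rw [f2, f4] at h7
    rw [f3, f4] at h10
    rw [f4, f5] at h13
    rw [f4, f6] at h14
    rw [f2, f3] at h6
    exact ⟨h3.symm, h7.symm, h10.symm, h13, h14, h6⟩
  -- the lines
  have T0 : ∀ i ≤ N, Tri a O (f i).v (f i).w' := by
    intro i hi
    obtain ⟨-, -, -, -, l3⟩ := hG ι a ha (f i) (hgood i hi)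
    obtain ⟨m1, m2, m3, m4, m5, m6⟩ := n1 i hi
    rw [(hu i hi).1] at l3
    exact ⟨m1, m3, m2.symm, l3⟩
  have T1 : ∀ i < N, Tri a G1 (f i).v (f (i + 1)).w' := by
    intro i hi
    obtain ⟨-, -, l1, -, -⟩ := hG ι a ha (f i) (hgood i hi.le)
    obtain ⟨⟨h1, h2, h3, h4, h5⟩, ⟨h6, h7, h8, h9⟩, ⟨h10, h11, h12⟩, ⟨h13, h14⟩, h15⟩ :=
      nodup6 (hgood i hi.le).1
    rw [(hu i hi.le).2, ← (hv i hi).2] at l1
    rw [← (hv i hi).2] at h6
    refine triOf hB ha h6 l1 ?_ ?_ (n1 i hi.le).2.2.2.1 h6 (n1 (i + 1) hi).2.2.2.2.1.symm ?_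
    · simp
    · simp
    · ext t; simp; tauto
  have Tm : ∀ i < N, Tri a Gm (f (i + 1)).v (f i).w' := by
    intro i hi
    obtain ⟨f1, f2, f3, f4, f5, f6, f7⟩ := hfm i hi
    obtain ⟨-, -, l1, -, -⟩ := hG ι a ha (fm i) f7
    rw [f2, f3, f4] at l1
    obtain ⟨q1, q2, q3, q4, q5, q6⟩ := n2 i hi
    refine triOf hB ha q6 l1 ?_ ?_ q3 q6 q4.symm ?_
    · simp
    · simp
    · ext t; simp; tauto
  have T2 : ∀ i, i + 1 < N → Tri a G2 (f i).v (f (i + 2)).w' := by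
    intro i hi
    obtain ⟨f1, f2, f3, f4, f5, f6, f7⟩ := hh i (by omega)
    obtain ⟨-, -, l1, -, -⟩ := hG ι a ha (h i) f7
    have e2 : (f (i + 1)).w = (f (i + 2)).w' := ((hv (i + 1) hi).2).symm
    rw [f2, f3, f4, e2] at l1
    obtain ⟨q1, q2, q3, q4, q5, q6⟩ := n3 i (by omega)
    rw [e2] at q3 q6
    refine triOf hB ha q6 l1 ?_ ?_ q2 q6 q3.symm ?_
    · simp
    · simp
    · ext t; simp; tauto
  -- distinctness of the vertices
  have hdis := hD ι a ha N f hN (by omega) hcol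
  have hlB : ∀ i ≤ N, ln a O (f i).w' = ln a O (f i).v := by
    intro i hi
    obtain ⟨t1, t2, t3, t4⟩ := T0 i hi
    refine hB1 O (f i).v O (f i).w' t1 t3.symm ?_ ?_
    · rw [t4]; simp
    · rw [t4]; simp
  have hAB : ∀ i ≤ N, ∀ j ≤ N, (f i).v ≠ (f j).w' ∧
      (i ≠ j → (f i).v ≠ (f j).v ∧ (f i).w' ≠ (f j).w') := by
    intro i hi j hj
    refine ⟨?_, fun hij => ⟨?_, ?_⟩⟩
    · by_cases hij : i = j
      · subst hij; exact (n1 i hi).2.2.1
      · intro hh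
        have := hdis i hi j hj hij
        apply this
        rw [← hO, hh, hlB j hj]
    · intro hh
      exact hdis i hi j hj hij (by rw [hh])
    · intro hh
      apply hdis i hi j hj hij
      rw [← hO, ← hlB i hi, ← hlB j hj, hh]
  refine ⟨Gm, G1, G2, ?_, ?_, ?_, ?_, ?_, ?_, ?_, ?_⟩
  · intro i hi
    exact T0 i (by omega)
  · intro i hi
    exact T1 i (by omega)
  · intro i hi
    exact Tm i (by omega)
  · intro i hi
    exact T2 i (by omega)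
  · intro i hi j hj
    exact hAB i (by omega) j (by omega)
  · have a1 : O ≠ Gm := (n2 0 (by omega)).1.symm
    have a2 : O ≠ G1 := (n1 0 (by omega)).2.2.2.2.2
    have a3 : G1 ≠ G2 := (n3 0 (by omega)).1.symm
    have a4 : O ≠ G2 := by
      intro hh
      have t1 := T0 0 (by omega)
      have t2 := T2 0 (by omega)
      rw [← hh] at t2
      have : (f 2).w' ∈ ({O, (f 0).v, (f 0).w'} : Finset ι) := by
        rw [← t1.2.2.2, t2.2.2.2]; simp
      simp only [mem_insert, mem_singleton] at this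
      rcases this with h1 | h1 | h1
      · exact (n1 2 (by omega)).2.1 h1.symm
      · exact (hAB 0 (by omega) 2 (by omega)).1 h1.symm
      · exact ((hAB 2 (by omega) 0 (by omega)).2 (by omega)).2 h1
    have a5 : Gm ≠ G1 := by
      intro hh
      have t1 := T1 0 (by omega)
      have t2 := Tm 1 (by omega)
      rw [hh] at t2
      have e1 : ln a G1 (f 1).w' = ln a G1 (f 0).v := by
        refine hB1 G1 (f 0).v G1 (f 1).w' t1.1 t1.2.2.1.symm ?_ ?_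
        · rw [t1.2.2.2]; simp
        · rw [t1.2.2.2]; simp
      have e2 : ln a G1 (f 1).w' = ln a G1 (f 2).v := by
        refine hB1 G1 (f 2).v G1 (f 1).w' t2.1 t2.2.2.1.symm ?_ ?_
        · rw [t2.2.2.2]; simp
        · rw [t2.2.2.2]; simp
      have : (f 2).v ∈ ({G1, (f 0).v, (f 1).w'} : Finset ι) := by
        rw [← t1.2.2.2, ← e1, e2, t2.2.2.2]; simp
      simp only [mem_insert, mem_singleton] at this
      rcases this with h1 | h1 | h1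
      · exact (n1 2 (by omega)).2.2.2.1 h1.symm
      · exact ((hAB 2 (by omega) 0 (by omega)).2 (by omega)).1 h1
      · exact (hAB 2 (by omega) 1 (by omega)).1 h1
    have a6 : Gm ≠ G2 := by
      intro hh
      have t1 := Tm 0 (by omega)
      have t2 := T2 1 (by omega)
      rw [← hh] at t2
      have : (f 3).w' ∈ ({Gm, (f 1).v, (f 0).w'} : Finset ι) := by
        rw [← t1.2.2.2, t2.2.2.2]; simp
      simp only [mem_insert, mem_singleton] at this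
      rcases this with h1 | h1 | h1
      · exact (n2 2 (by omega)).2.2.2.2.1 h1.symm
      · exact (hAB 1 (by omega) 3 (by omega)).1 h1.symm
      · exact ((hAB 3 (by omega) 0 (by omega)).2 (by omega)).2 h1
    simp only [List.nodup_cons, List.mem_cons, not_or, List.not_mem_nil, not_false_eq_true,
      and_true, List.nodup_nil]
    exact ⟨⟨a1, a2, a4⟩, ⟨a5, a6⟩, a3⟩
  · intro i hi
    have hi' : i ≤ N := by omega
    obtain ⟨m1, m2, m3, m4, m5, m6⟩ := n1 i hi'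
    have hm : Gm ≠ (f i).v ∧ Gm ≠ (f i).w' := by
      rcases Nat.lt_or_ge i N with h1 | h1
      · exact ⟨(n2 i h1).2.1, (n2 i h1).2.2.2.1⟩
      · have : i = (N - 1) + 1 := by omega
        rw [this]
        exact ⟨(n2 (N - 1) (by omega)).2.2.1, (n2 (N - 1) (by omega)).2.2.2.2.1⟩
    exact ⟨m1.symm, hm.1.symm, m4.symm, m2.symm, hm.2.symm, m5.symm⟩
  · intro i hi
    obtain ⟨q1, q2, q3, q4, q5, q6⟩ := n3 i (by omega)
    exact ⟨q2.symm, q5.symm⟩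

end Pool.Agent.GTO.H44
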